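import Pool.Agent.LPH.Low

/-!
# The CP-hierarchy (MP_6e1f77_lc)
-/

set_option autoImplicit false

namespace Pool.Agent.LPH

open Pool.Agent.PolyTime

/-! ### decidable properties -/

open Classical in
/-- the property is decidable in polynomial time -/
def DP (P : Str → Prop) : Prop := FP fun w => [decide (P w)]

theorem DP.congr {P Q : Str → Prop} (h : DP P) (h' : ∀ w, P w ↔ Q w) : DP Q := by
  have : P = Q := funext fun w => propext (h' w)
  rwa [← this]

theorem DP.and {P Q : Str → Prop} (h : DP P) (h' : DP Q) : DP fun w => P w ∧ Q w := by
  classical
  refine (FP.cases h (FP.const [false]) (FP.const [false]) h').congr fun w => ?_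
  by_cases hP : P w <;> simp [hP]

theorem DP.or {P Q : Str → Prop} (h : DP P) (h' : DP Q) : DP fun w => P w ∨ Q w := by
  classical
  refine (FP.cases h (FP.const [false]) h' (FP.const [true])).congr fun w => ?_
  by_cases hP : P w <;> simp [hP]

theorem DP.eq {u v : Str → Str} (hu : FP u) (hv : FP v) : DP fun w => u w = v w := by
  classical
  exact (FP.decideEq hu hv).congr fun w => by
    by_cases h : u w = v w <;> simp [h]

theorem DP.comp {P : Str → Prop} (h : DP P) {u : Str → Str} (hu : FP u) : DP fun w => P (u w) :=
  FP.comp h hu

theorem DP.le {u v : Str → Str} (hu : FP u) (hv : FP v) :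
    DP fun w => (u w).length ≤ (v w).length := by
  refine (DP.eq (FP.dropLen hv hu) FP.nil).congr fun w => ?_
  rw [List.drop_eq_nil_iff]

theorem FPZ.ite {P : Str → Prop} [DecidablePred P] (hP : DP P) {f g : Set Str → Str → Str}
    (hf : FPZ f) (hg : FPZ g) : FPZ fun Z w => if P w then f Z w else g Z w := by
  classical
  have hG : FP (fun w : Str => match p1 w with
      | [] => p2 (p2 w)
      | false :: _ => p2 (p2 w)
      | true :: _ => p1 (p2 w)) :=
    FP.cases FP.p1 (FP.p2.comp FP.p2) (FP.p2.comp FP.p2) (FP.p1.comp FP.p2)
  refine ((FPZ.base hG).comp ((FPZ.base hP).pair (hf.pair hg))).congr fun Z w => ?_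
  simp only [p1_pr, p2_pr]
  by_cases h : P w <;> simp [h]

/-! ### unary polynomials -/

theorem FP.zeros {u : Str → Str} (hu : FP u) : FP fun x => List.replicate (u x).length false := by
  have h1 : ∀ n, (fun w : Str => false :: w)^[n] [] = List.replicate n false := by
    intro n
    induction n with
    | zero => rfl
    | succ n ih => rw [Function.iterate_succ_apply', ih, List.replicate_succ]
  obtain ⟨p, hp⟩ := hu.length_le
  refine (FP.iter (FP.cons false) hu FP.nil p fun x i hi => ?_).congr fun x => h1 _
  rw [h1, List.length_replicate]
  exact hi.trans (hp x)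

theorem exists_unary (p : Polynomial ℕ) :
    ∃ u : Str → Str, FP u ∧ ∀ x, (u x).length = p.eval x.length := by
  induction p using Polynomial.induction_on' with
  | add p q hp hq =>
    obtain ⟨u, hu, hu'⟩ := hp
    obtain ⟨v, hv, hv'⟩ := hq
    refine ⟨fun x => u x ++ v x, FP.append hu hv, fun x => ?_⟩
    rw [List.length_append, hu', hv', Polynomial.eval_add]
  | monomial n a =>
    induction n with
    | zero =>
      exact ⟨fun _ => List.replicate a false, FP.const _, fun x => by simp⟩
    | succ n ih =>
      obtain ⟨u, hu, hu'⟩ := ih
      refine ⟨fun x => umul (u x) x, FP.umul hu FP.id, fun x => ?_⟩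
      rw [length_umul, hu', Polynomial.eval_monomial, Polynomial.eval_monomial, pow_succ]
      ring

/-- the string of `p.eval x.length` zeros -/
theorem exists_zeros (p : Polynomial ℕ) :
    FP fun x : Str => List.replicate (p.eval x.length) false := by
  obtain ⟨u, hu, hu'⟩ := exists_unary p
  refine (FP.zeros hu).congr fun x => ?_
  rw [hu']

/-! ### the enumeration of the strings -/

/-- the number with the binary digits `l` (the least significant first) and a leading one -/
def val : Str → ℕ
  | [] => 1
  | b :: l => Nat.bit b (val l)

theorem val_pos (l : Str) : 0 < val l := by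
  induction l with
  | nil => exact one_pos
  | cons b l ih =>
    rw [val, Nat.bit_val]
    omega

theorem bits_val (l : Str) : (val l).bits = l ++ [true] := by
  induction l with
  | nil => simp [val]
  | cons b l ih =>
    rw [val, Nat.bits_append_bit _ _ fun h => absurd h (val_pos l).ne', ih]
    rfl

theorem val_inj {l m : Str} (h : val l = val m) : l = m := by
  have h1 := bits_val l
  rw [h, bits_val m] at h1
  exact (List.append_cancel_right h1).symm

theorem z_val (l : Str) : z (val l - 1) = l.reverse := by
  rw [z, Nat.sub_add_cancel (val_pos l), bits_val, List.dropLast_concat]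

theorem val_z (n : ℕ) : val (z n).reverse = n + 1 := by
  have h1 := z_val (z n).reverse
  rw [List.reverse_reverse] at h1
  have h2 := z_inj h1
  have h3 := val_pos (z n).reverse
  omega

theorem z_surj (v : Str) : ∃ n, z n = v :=
  ⟨val v.reverse - 1, by rw [z_val, List.reverse_reverse]⟩

theorem val_lt_iff (l : Str) (q : ℕ) : val l < 2 ^ q ↔ l.length < q := by
  induction l generalizing q with
  | nil =>
    rw [val, List.length_nil]
    cases q with
    | zero => simp
    | succ q =>
      have : 1 < 2 ^ (q + 1) := Nat.one_lt_two_pow (by omega)
      exact iff_of_true this (by omega)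
  | cons b l ih =>
    cases q with
    | zero =>
      have := val_pos (b :: l)
      simp only [pow_zero, List.length_cons, not_lt_zero, iff_false]
      omega
    | succ q =>
      rw [val, Nat.bit_val, List.length_cons, Nat.succ_lt_succ_iff, ← ih, pow_succ]
      cases b
      · simp only [Bool.toNat_false]
        omega
      · simp only [Bool.toNat_true]
        omega

theorem val_zeros (q : ℕ) : val (List.replicate q false) = 2 ^ q := by
  induction q with
  | zero => rfl
  | succ q ih =>
    rw [List.replicate_succ, val, ih, Nat.bit_val, pow_succ]
    simp only [Bool.toNat_false]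
    ring

/-- the string `z (2 ^ q)` -/
def last (s : Str) : Str := if s = [] then [false] else s.tail ++ [true]

theorem val_last (q : ℕ) : val (last (List.replicate q false)).reverse = 2 ^ q + 1 := by
  cases q with
  | zero => rfl
  | succ q =>
    rw [last, if_neg (by simp), List.replicate_succ, List.tail_cons, List.reverse_append,
      List.reverse_replicate]
    show val (true :: List.replicate q false) = _
    rw [val, val_zeros, Nat.bit_val, pow_succ]
    simp only [Bool.toNat_true]
    ring

/-- the strings `z i`, `i ≤ 2 ^ q` -/
def Low (q : ℕ) (v : Str) : Prop :=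
  v.length < q ∨ v = List.replicate q false ∨ v = last (List.replicate q false)

theorem low_iff (q i : ℕ) : Low q (z i) ↔ i ≤ 2 ^ q := by
  have h1 : (z i).length < q ↔ i + 1 < 2 ^ q := by
    rw [← val_z i, val_lt_iff, List.length_reverse]
  have h2 : z i = List.replicate q false ↔ i + 1 = 2 ^ q := by
    rw [← val_z i, ← val_zeros q]
    constructor
    · intro h
      rw [h, List.reverse_replicate]
    · intro h
      have := val_inj h
      rw [← List.reverse_reverse (z i), this, List.reverse_replicate]
  have h3 : z i = last (List.replicate q false) ↔ i + 1 = 2 ^ q + 1 := by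
    rw [← val_z i, ← val_last q]
    constructor
    · intro h
      rw [h]
    · intro h
      exact List.reverse_injective (val_inj h)
  unfold Low
  rw [h1, h2, h3]
  omega

theorem Low.length_le {q : ℕ} {v : Str} (h : Low q v) : v.length ≤ q + 1 := by
  rcases h with h | h | h
  · omega
  · rw [h, List.length_replicate]
    omega
  · rw [h, last]
    split_ifs with h1
    · simp
    · simp


theorem FP_last {u : Str → Str} (hu : FP u) : FP fun x => last (u x) :=
  FP.ite_nil hu (FP.const [false]) (FP.append (FP.tail' hu) (FP.const [true]))

end Pool.Agent.LPH
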