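import Pool.Agent.LPH.Cp

/-!
# The collapse of the CP-hierarchy (MP_6e1f77_lc)
-/

set_option autoImplicit false

namespace Pool.Agent.LPH

open Pool.Agent.PolyTime

/-! ### preimages -/

/-- The classes `Σ_k` are closed under preimages of polynomial time functions. -/
theorem Sig.preimage {k : ℕ} {B : Set Str → Set Str} (hB : Sig k B) {h : Str → Str} (hh : FP h) :
    Sig k (fun Z => {x | h x ∈ B Z}) := by
  cases k with
  | zero =>
    obtain ⟨f, hf, hB⟩ := hB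
    exact ⟨_, hf.comp (FPZ.base hh), fun Z x => hB Z (h x)⟩
  | succ k =>
    classical
    obtain ⟨A, hA, f, hf, p, hB⟩ := hB
    obtain ⟨u, hu, hu'⟩ := exists_unary p
    obtain ⟨r, hr⟩ := hh.length_le
    have hD : DP fun w => (p2 w).length ≤ p.eval (h (p1 w)).length := by
      refine (DP.le FP.p2 (hu.comp (hh.comp FP.p1))).congr fun w => ?_
      rw [hu']
    refine ⟨A, hA, _, FPZ.ite hD (hf.comp (FPZ.base ((hh.comp FP.p1).pair FP.p2)))
      (FPZ.base (FP.const [])), p.comp r, fun Z x => ?_⟩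
    rw [Set.mem_ofPred_eq, hB]
    refine exists_congr fun y => ?_
    simp only [p1_pr, p2_pr]
    by_cases hy : y.length ≤ p.eval (h x).length
    · rw [if_pos hy]
      refine and_congr_left fun _ => iff_of_true hy ?_
      rw [Polynomial.eval_comp]
      exact hy.trans (poly_mono p (hr x))
    · rw [if_neg hy]
      simp [hy]

theorem Cl.preimage {a : Lev} {B : Set Str → Set Str} (hB : Cl a B) {h : Str → Str} (hh : FP h) :
    Cl a (fun Z => {x | h x ∈ B Z}) := by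
  match a, hB with
  | .D 0, hB => exact Sig.preimage (k := 0) hB hh
  | .D (k + 1), ⟨A, hA, f, hf, hB⟩ =>
    exact ⟨A, hA, _, hf.comp (FPZ.base hh), fun Z x => hB Z (h x)⟩
  | .S k, hB => exact Sig.preimage (k := k) hB hh
  | .P k, hB => exact Sig.preimage (k := k) (B := fun Z => (B Z)ᶜ) hB hh

/-! ### existential quantifiers -/

/-- `Σ_{k+1}` is closed under the search in an initial segment of exponential length. -/
theorem Sig.exists_low {k : ℕ} {B : Set Str → Set Str} (hB : Sig (k + 1) B) (q : Polynomial ℕ) :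
    Sig (k + 1) (fun Z => {x | ∃ i ≤ 2 ^ q.eval x.length, pr x (z i) ∈ B Z}) := by
  classical
  obtain ⟨A, hA, f, hf, p, hB⟩ := hB
  obtain ⟨u, hu, hu'⟩ := exists_unary p
  obtain ⟨t, ht, ht'⟩ := exists_unary q
  have hzq : FP fun w : Str => List.replicate (q.eval (p1 w).length) false :=
    (exists_zeros q).comp FP.p1
  have hv : FP fun w : Str => p1 (p2 w) := FP.p1.comp FP.p2
  have hL : DP fun w => Low (q.eval (p1 w).length) (p1 (p2 w)) := by
    refine ((DP.le (FP.cons false |>.comp hv) (ht.comp FP.p1)).or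
      ((DP.eq hv hzq).or (DP.eq hv (FP_last hzq)))).congr fun w => ?_
    unfold Low
    rw [ht', List.length_cons, Nat.succ_le_iff]
  have hD : DP fun w => (p2 (p2 w)).length ≤ p.eval (pr (p1 w) (p1 (p2 w))).length := by
    refine (DP.le (FP.p2.comp FP.p2) (hu.comp (FP.p1.pair hv))).congr fun w => ?_
    rw [hu']
  refine ⟨A, hA, _, FPZ.ite (hL.and hD)
    (hf.comp (FPZ.base ((FP.p1.pair hv).pair (FP.p2.comp FP.p2))))
      (FPZ.base (FP.const [])),
    2 * (q + 1) + 1 + p.comp (2 * Polynomial.X + 1 + (q + 1)), fun Z x => ?_⟩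
  rw [Set.mem_ofPred_eq]
  constructor
  · rintro ⟨i, hi, h⟩
    rw [hB] at h
    obtain ⟨y, hy, h⟩ := h
    have hlow := (low_iff _ _).2 hi
    have hlen := hlow.length_le
    refine ⟨pr (z i) y, ?_, ?_⟩
    · rw [length_pr] at hy ⊢
      simp only [Polynomial.eval_add, Polynomial.eval_mul, Polynomial.eval_comp,
        Polynomial.eval_X, Polynomial.eval_one, Polynomial.eval_ofNat]
      have := poly_mono p (show 2 * x.length + 1 + (z i).length ≤
        2 * x.length + 1 + (q.eval x.length + 1) by omega)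
      omega
    · simp only [p1_pr, p2_pr]
      rw [if_pos ⟨hlow, hy⟩]
      exact h
  · rintro ⟨y, -, h⟩
    simp only [p1_pr] at h
    split_ifs at h with h1
    · obtain ⟨i, hi⟩ := z_surj (p1 (p2 (pr x y)))
      rw [← hi] at h1 h
      refine ⟨i, (low_iff _ _).1 h1.1, ?_⟩
      rw [hB]
      exact ⟨_, h1.2, h⟩

/-! ### the classes of the CP-hierarchy -/

theorem mem_Lf {f : ℕ → ℕ} {B : Set Str} {x : Str} :
    pr x (z 0) ∈ Lf f B ↔ ∃ i ≤ 2 ^ f x.length, pr x (z i) ∈ B := by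
  have hfin : {k | k ≤ 2 ^ f x.length ∧ pr x (z k) ∈ B}.Finite :=
    (Set.finite_Iic (2 ^ f x.length)).subset fun k hk => hk.1
  constructor
  · rintro ⟨x', m, he, hm⟩
    rw [pr_inj] at he
    obtain ⟨rfl, he⟩ := he
    obtain ⟨k, hk⟩ := (Set.ncard_pos hfin).1 (Nat.pos_of_ne_zero (by omega))
    exact ⟨k, hk⟩
  · rintro ⟨k, hk⟩
    exact ⟨x, 0, rfl, (Set.ncard_pos hfin).2 ⟨k, hk⟩⟩

theorem CCl_mono {a b : Lev} (h : UCl a ⊆ UCl b) : CCl a ⊆ CCl b := by
  rintro L ⟨p, B, hB, rfl⟩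
  exact ⟨p, B, h hB, rfl⟩

/-- The classes `C Σ_k`, `k ≥ 1`, determine the classes `Σ_k`. -/
theorem CCl_subset_iff (a : Lev) {k : ℕ} (hk : 1 ≤ k) :
    CCl a ⊆ CCl (.S k) ↔ UCl a ⊆ UCl (.S k) := by
  refine ⟨fun h => ?_, CCl_mono⟩
  intro L hL
  have hL' : Cl a (fun _ => L) := mem_UCl.1 hL
  have hB : {t : Str | p1 t ∈ L} ∈ UCl a := mem_UCl.2 (hL'.preimage FP.p1)
  obtain ⟨q, A, hA, hAB⟩ := h ⟨(0 : Polynomial ℕ), _, hB, rfl⟩
  obtain ⟨j, rfl⟩ : ∃ j, k = j + 1 := ⟨k - 1, by omega⟩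
  have hA' : Sig (j + 1) (fun _ => A) := mem_UCl.1 hA
  have h1 := hA'.exists_low q
  have h2 : L = {x | ∃ i ≤ 2 ^ q.eval x.length, pr x (z i) ∈ A} := by
    ext x
    have h3 : pr x (z 0) ∈ Lf (fun n => (0 : Polynomial ℕ).eval n) {t : Str | p1 t ∈ L} ↔
        pr x (z 0) ∈ Lf (fun n => q.eval n) A := by rw [hAB]
    rw [mem_Lf, mem_Lf] at h3
    simp only [Set.mem_ofPred_eq, p1_pr] at h3
    rw [Set.mem_ofPred_eq, ← h3]
    constructor
    · intro hx
      exact ⟨0, Nat.zero_le _, hx⟩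
    · rintro ⟨_, _, hx⟩
      exact hx
  rw [h2]
  exact mem_UCl.2 h1

theorem CCl_eq_iff {k m : ℕ} (hk : 1 ≤ k) (hm : 1 ≤ m) :
    CCl (.S k) = CCl (.S m) ↔ UCl (.S k) = UCl (.S m) := by
  rw [Set.Subset.antisymm_iff, Set.Subset.antisymm_iff, CCl_subset_iff _ hk, CCl_subset_iff _ hm]

/-! ### the polynomial hierarchy -/

theorem Sig.step {k : ℕ} {B : Set Str → Set Str} (h : Sig k B) : Sig (k + 1) B := by
  classical
  refine ⟨B, h, _, FPZ.oracle.comp (FPZ.base FP.p1), 0, fun Z x => ?_⟩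
  constructor
  · intro hx
    exact ⟨[], by simp, by simpa using hx⟩
  · rintro ⟨y, _, hy⟩
    simpa using hy

theorem UCl_step (k : ℕ) : UCl (.S k) ⊆ UCl (.S (k + 1)) := fun _ hL =>
  mem_UCl.2 (Sig.step (k := k) (mem_UCl.1 hL))

theorem UCl_mono_nat {k m : ℕ} (h : k ≤ m) : UCl (.S k) ⊆ UCl (.S m) := by
  induction h with
  | refl => exact Set.Subset.rfl
  | step _ ih => exact ih.trans (UCl_step _)

/-- The polynomial hierarchy has the downward separation property. -/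
theorem UCl_collapse {k : ℕ} (h : UCl (.S k) = UCl (.S (k + 1))) {m : ℕ} (hm : k ≤ m) :
    UCl (.S m) = UCl (.S k) := by
  induction hm with
  | refl => rfl
  | @step m hm ih =>
    refine Set.Subset.antisymm ?_ (UCl_mono_nat (Nat.le_succ_of_le hm))
    intro L hL
    have hL' : Sig (m + 1) (fun _ => L) := mem_UCl.1 hL
    obtain ⟨A, hA, f, hf, p, hB⟩ := hL'
    have hA' : A ∅ ∈ UCl (.S m) := ⟨A, hA, rfl⟩
    rw [ih] at hA'
    have hA'' : Sig k (fun _ => A ∅) := mem_UCl.1 hA'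
    rw [h]
    exact mem_UCl.2 (show Sig (k + 1) (fun _ => L) from
      ⟨_, hA'', f, hf, p, fun Z x => hB ∅ x⟩)

/-- `P^(Σ_k)` depends only on `Σ_k`. -/
theorem UCl_D_congr {k m : ℕ} (h : UCl (.S k) = UCl (.S m)) :
    UCl (.D (k + 1)) ⊆ UCl (.D (m + 1)) := by
  intro L hL
  obtain ⟨A, hA, f, hf, hB⟩ : Cl (.D (k + 1)) (fun _ => L) := mem_UCl.1 hL
  have hA' : A ∅ ∈ UCl (.S k) := ⟨A, hA, rfl⟩
  rw [h] at hA'
  have hA'' : Sig m (fun _ => A ∅) := mem_UCl.1 hA'
  exact mem_UCl.2 (show Cl (.D (m + 1)) (fun _ => L) from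
    ⟨_, hA'', f, hf, fun Z x => hB ∅ x⟩)

theorem UCl_P {k : ℕ} {L : Set Str} : L ∈ UCl (.P k) ↔ Lᶜ ∈ UCl (.S k) := by
  rw [mem_UCl, mem_UCl]
  exact Iff.rfl

theorem UCl_P_congr {k m : ℕ} (h : UCl (.S k) = UCl (.S m)) : UCl (.P k) = UCl (.P m) := by
  ext L
  rw [UCl_P, UCl_P, h]

/-! ### the collapse -/

private theorem stable_of_finite {α : Type} {f : ℕ → Set α} (hf : ∀ k m, k ≤ m → f k ⊆ f m)
    (h : (Set.range f).Finite) : ∃ k, ∀ m, k ≤ m → f m = f k := by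
  obtain ⟨M, ⟨k, rfl⟩, hM⟩ := h.exists_maximal (Set.range_nonempty f)
  refine ⟨k, fun m hm => ?_⟩
  exact Set.Subset.antisymm (hM ⟨m, rfl⟩ (hf k m hm)) (hf k m hm)

theorem finite_UCl {k : ℕ} (h : ∀ m, k ≤ m → UCl (.S m) = UCl (.S k)) :
    (Set.range UCl).Finite := by
  have h1 : Set.range UCl ⊆ (fun a : Lev => UCl a) '' ({a | ∃ m ≤ k + 1, a = .D m} ∪
      {a | ∃ m ≤ k, a = .S m} ∪ {a | ∃ m ≤ k, a = .P m}) := by
    rintro C ⟨a, rfl⟩
    match a with
    | .D m =>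
      by_cases hm : m ≤ k + 1
      · exact ⟨_, Or.inl (Or.inl ⟨m, hm, rfl⟩), rfl⟩
      · obtain ⟨n, rfl⟩ : ∃ n, m = n + 1 := ⟨m - 1, by omega⟩
        have h2 := h n (by omega)
        exact ⟨_, Or.inl (Or.inl ⟨k + 1, le_rfl, rfl⟩),
          Set.Subset.antisymm (UCl_D_congr h2.symm) (UCl_D_congr h2)⟩
    | .S m =>
      by_cases hm : m ≤ k
      · exact ⟨_, Or.inl (Or.inr ⟨m, hm, rfl⟩), rfl⟩
      · exact ⟨_, Or.inl (Or.inr ⟨k, le_rfl, rfl⟩), (h m (by omega)).symm⟩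
    | .P m =>
      by_cases hm : m ≤ k
      · exact ⟨_, Or.inr ⟨m, hm, rfl⟩, rfl⟩
      · exact ⟨_, Or.inr ⟨k, le_rfl, rfl⟩, (UCl_P_congr (h m (by omega))).symm⟩
  refine Set.Finite.subset (Set.Finite.image _ ?_) h1
  refine ((?_ : Set.Finite _).union ?_).union ?_
  · refine ((Set.finite_Iic (k + 1)).image Lev.D).subset ?_
    rintro a ⟨m, hm, rfl⟩
    exact ⟨m, hm, rfl⟩
  · refine ((Set.finite_Iic k).image Lev.S).subset ?_
    rintro a ⟨m, hm, rfl⟩
    exact ⟨m, hm, rfl⟩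
  · refine ((Set.finite_Iic k).image Lev.P).subset ?_
    rintro a ⟨m, hm, rfl⟩
    exact ⟨m, hm, rfl⟩

/-- The CP-hierarchy consists of finitely many classes if and only if the polynomial hierarchy
does. -/
theorem finite_iff : (Set.range CCl).Finite ↔ (Set.range UCl).Finite := by
  constructor
  · intro h
    have h1 : (Set.range fun k => CCl (.S k)).Finite := h.subset (by
      rintro C ⟨k, rfl⟩
      exact ⟨_, rfl⟩)
    obtain ⟨k, hk⟩ := stable_of_finite (f := fun k => CCl (.S k))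
      (fun k m hkm => CCl_mono (UCl_mono_nat hkm)) h1
    refine finite_UCl (k := k + 1) fun m hm => ?_
    refine (CCl_eq_iff (by omega) (by omega)).1 ?_
    rw [hk m (by omega), hk (k + 1) (by omega)]
  · intro h
    have h1 : Set.range CCl ⊆ (fun C : Set (Set Str) =>
        {L | ∃ (p : Polynomial ℕ) (B : Set Str), B ∈ C ∧ L = Lf (fun n => p.eval n) B}) ''
          Set.range UCl := by
      rintro C ⟨a, rfl⟩
      exact ⟨UCl a, ⟨a, rfl⟩, rfl⟩
    exact (h.image _).subset h1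

/-- The negated form of the question. -/
theorem infinite_iff : (∀ k, ∃ m, k < m ∧ CCl (.S k) ≠ CCl (.S m)) ↔
    (∀ k, ∃ m, k < m ∧ UCl (.S k) ≠ UCl (.S m)) := by
  constructor
  · intro h k
    obtain ⟨m, hm, hne⟩ := h k
    exact ⟨m, hm, fun he => hne (Set.Subset.antisymm (CCl_mono he.subset) (CCl_mono he.symm.subset))⟩
  · intro h k
    by_contra hc
    push Not at hc
    obtain ⟨m, hm, hne⟩ := h (k + 1)
    refine hne ((CCl_eq_iff (by omega) (by omega)).1 ?_)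
    rw [← hc (k + 1) (by omega), ← hc m (by omega)]

/-- The downward separation property of the CP-hierarchy from the first level on. -/
theorem CCl_collapse {k : ℕ} (hk : 1 ≤ k) (h : CCl (.S k) = CCl (.S (k + 1))) {m : ℕ}
    (hm : k ≤ m) : CCl (.S m) = CCl (.S k) := by
  have h1 := UCl_collapse ((CCl_eq_iff hk (by omega)).1 h) hm
  exact (CCl_eq_iff (by omega) hk).2 h1

/-! ### all levels -/

theorem UCl_D_zero : UCl (.D 0) ⊆ UCl (.S 0) := fun _ hL => mem_UCl.2 (mem_UCl.1 hL)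

theorem UCl_D_le (k : ℕ) : UCl (.D (k + 1)) ⊆ UCl (.S (k + 1)) := by
  intro L hL
  obtain ⟨A, hA, f, hf, hB⟩ : Cl (.D (k + 1)) (fun _ => L) := mem_UCl.1 hL
  refine mem_UCl.2 (show Sig (k + 1) (fun _ => L) from
    ⟨A, hA, _, hf.comp (FPZ.base FP.p1), 0, fun Z x => ?_⟩)
  constructor
  · intro hx
    refine ⟨[], by simp, ?_⟩
    rw [p1_pr]
    exact (hB Z x).1 hx
  · rintro ⟨y, _, hy⟩
    rw [p1_pr] at hy
    exact (hB Z x).2 hy

theorem UCl_P_le (k : ℕ) : UCl (.P k) ⊆ UCl (.S (k + 1)) := by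
  classical
  intro L hL
  have hA : Sig k (fun _ => Lᶜ) := mem_UCl.1 hL
  have hflip : FP fun u : Str => match u with
      | [] => [true]
      | false :: _ => [true]
      | true :: _ => [false] :=
    FP.cases FP.id (FP.const [true]) (FP.const [true]) (FP.const [false])
  refine mem_UCl.2 (show Sig (k + 1) (fun _ => L) from
    ⟨_, hA, _, (FPZ.base hflip).comp (FPZ.oracle.comp (FPZ.base FP.p1)), 0, fun Z x => ?_⟩)
  have h1 : ∀ (P : Prop) (_ : Decidable P), ((match ([decide P] : Str) with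
      | [] => [true]
      | false :: _ => [true]
      | true :: _ => [false]) = [true]) ↔ ¬ P := by
    intro P _
    by_cases hx : P <;> simp [hx]
  constructor
  · intro hx
    refine ⟨[], by simp, (h1 _ _).2 ?_⟩
    rw [p1_pr]
    exact fun h => h hx
  · rintro ⟨y, _, hy⟩
    have h2 := (h1 _ _).1 hy
    rw [p1_pr] at h2
    exact not_not.1 h2

theorem UCl_le (a : Lev) : ∃ k, UCl a ⊆ UCl (.S k) := by
  match a with
  | .D 0 => exact ⟨0, UCl_D_zero⟩
  | .D (k + 1) => exact ⟨k + 1, UCl_D_le k⟩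
  | .S k => exact ⟨k, Set.Subset.rfl⟩
  | .P k => exact ⟨k + 1, UCl_P_le k⟩

/-- If two neighbouring classes `C Σ_k` and `C Σ_{k+1}`, `k ≥ 1`, agree, then the whole
CP-hierarchy is contained in `C Σ_k`. -/
theorem CCl_all {k : ℕ} (hk : 1 ≤ k) (h : CCl (.S (k + 1)) ⊆ CCl (.S k)) (a : Lev) :
    CCl a ⊆ CCl (.S k) := by
  have h1 : UCl (.S k) = UCl (.S (k + 1)) :=
    Set.Subset.antisymm (UCl_step k) ((CCl_subset_iff _ hk).1 h)
  obtain ⟨m, hm⟩ := UCl_le a
  refine CCl_mono (hm.trans ?_)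
  rcases le_total k m with hkm | hkm
  · rw [UCl_collapse h1 hkm]
  · exact UCl_mono_nat hkm

end Pool.Agent.LPH
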