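import Pool.Agent.PolyTime.Classes
import Pool.Agent.PolyTime.More
import Mathlib

/-!
# The LP-hierarchy and the CP-hierarchy: definitions (MP_6e1f77_lc, folder of helper89)

`Str` is the set of the binary strings, `pr u v` the string pairing of `Pool.Agent.PolyTime`, `FP f`
means that a Mathlib Turing machine computes `f` in polynomial time.
-/

set_option autoImplicit false

namespace Pool.Agent.LPH

open Pool.Agent.PolyTime MeasureTheory

/-- binary strings -/
abbrev Str : Type := List Bool

open Classical in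
/-- Functions of an oracle `Z` and a string computed by a fixed oracle program in polynomial time:
the least class that contains the polynomial time functions (Turing machines) and the oracle, and is
closed under composition, pairing and polynomially length-bounded iteration. -/
inductive FPZ : (Set Str → Str → Str) → Prop
  | base {f : Str → Str} (hf : FP f) : FPZ (fun _ x => f x)
  | oracle : FPZ (fun Z x => [decide (x ∈ Z)])
  | comp {g f : Set Str → Str → Str} (hg : FPZ g) (hf : FPZ f) : FPZ (fun Z x => g Z (f Z x))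
  | pair {f g : Set Str → Str → Str} (hf : FPZ f) (hg : FPZ g) :
      FPZ (fun Z x => pr (f Z x) (g Z x))
  | iter {f g h : Set Str → Str → Str} (hf : FPZ f) (hg : FPZ g) (hh : FPZ h)
      (p : Polynomial ℕ)
      (hp : ∀ Z x i, i ≤ (g Z x).length → ((f Z)^[i] (h Z x)).length ≤ p.eval x.length) :
      FPZ (fun Z x => (f Z)^[(g Z x).length] (h Z x))

/-- The oracle dependent languages `Z ↦ B Z` in `Σ_k^{p,Z}`: `P^Z` for `k = 0`, and
`NP^(Σ_k^{p,Z})` for `k + 1`. -/
def Sig : ℕ → (Set Str → Set Str) → Prop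
  | 0, B => ∃ f, FPZ f ∧ ∀ Z x, x ∈ B Z ↔ f Z x = [true]
  | k + 1, B => ∃ A, Sig k A ∧ ∃ f, FPZ f ∧ ∃ p : Polynomial ℕ, ∀ Z x,
      x ∈ B Z ↔ ∃ y : Str, y.length ≤ p.eval x.length ∧ f (A Z) (pr x y) = [true]

/-- the levels `Δ_k`, `Σ_k`, `Π_k` -/
inductive Lev : Type
  | D (k : ℕ)
  | S (k : ℕ)
  | P (k : ℕ)

/-- The oracle dependent languages of a level of the relativized polynomial hierarchy:
`Δ_0 = P`, `Δ_{k+1} = P^(Σ_k)`, `Π_k = co-Σ_k`. -/
def Cl : Lev → (Set Str → Set Str) → Prop
  | .D 0, B => Sig 0 B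
  | .D (k + 1), B => ∃ A, Sig k A ∧ ∃ f, FPZ f ∧ ∀ Z x, x ∈ B Z ↔ f (A Z) x = [true]
  | .S k, B => Sig k B
  | .P k, B => Sig k (fun Z => (B Z)ᶜ)

/-- the string `z_n`: `1 z_n` is the binary representation of `n + 1` -/
def z (n : ℕ) : Str := ((n + 1).bits.dropLast).reverse

/-- independent fair coins, one for every string -/
noncomputable def coins : Measure (Str → Bool) :=
  Measure.infinitePi fun _ => (PMF.uniformOfFintype Bool).toMeasure

/-- the probability that a random oracle has the property `E` -/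
noncomputable def mu (E : Set Str → Prop) : ℝ := (coins {ω | E {s | ω s = true}}).toReal

/-- `Lm(B)`: the strings `⟨x, z_k, z_n⟩` with `μ {Z | x ∈ B Z} > n / k` -/
def Lm (B : Set Str → Set Str) : Set Str :=
  {w | ∃ x k n, w = pr x (pr (z k) (z n)) ∧ 0 < k ∧ (n : ℝ) / k < mu fun Z => x ∈ B Z}

/-- the class of the LP-hierarchy of a level -/
def LCl (a : Lev) : Set (Set Str) := {L | ∃ B, Cl a B ∧ L = Lm B}

/-- the unrelativized class of a level of the polynomial hierarchy (the empty oracle) -/
def UCl (a : Lev) : Set (Set Str) := {L | ∃ B, Cl a B ∧ L = B ∅}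

/-- `L(f, B)`: the strings `⟨x, z_m⟩` such that more than `m` of the `k ≤ 2 ^ f(|x|)` have
`⟨x, z_k⟩ ∈ B` -/
def Lf (f : ℕ → ℕ) (B : Set Str) : Set Str :=
  {w | ∃ x m, w = pr x (z m) ∧ m < {k | k ≤ 2 ^ f x.length ∧ pr x (z k) ∈ B}.ncard}

/-- the class of the CP-hierarchy of a level -/
def CCl (a : Lev) : Set (Set Str) :=
  {L | ∃ (p : Polynomial ℕ) (B : Set Str), B ∈ UCl a ∧ L = Lf (fun n => p.eval n) B}

end Pool.Agent.LPH
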