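import Pool.Agent.LPH.Low

/-!
# The first levels of the LP-hierarchy (MP_6e1f77_lc)

Probabilities of events of `P^Z`, `NP^Z` and `coNP^Z`.
-/

set_option autoImplicit false

namespace Pool.Agent.LPH

open Pool.Agent.PolyTime MeasureTheory

/-! ### simple closure facts -/

theorem Sig.id : Sig 0 (fun Z => Z) := ⟨_, FPZ.oracle, fun Z x => by simp⟩

theorem Sig.succ {B : Set Str → Set Str} (h : Sig 0 B) : Sig 1 B := by
  obtain ⟨f, hf, hB⟩ := h
  refine ⟨fun Z => Z, Sig.id, fun Z w => f Z (p1 w), hf.comp (FPZ.base FP.p1), 0, fun Z x => ?_⟩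
  rw [hB]
  constructor
  · intro h
    exact ⟨[], by simp, by simpa using h⟩
  · rintro ⟨y, _, h⟩
    simpa using h

/-- the negation of the answer of the oracle -/
def flip (u : Str) : Str :=
  match u with
  | [] => [true]
  | false :: _ => [true]
  | true :: _ => [false]

theorem FP_flip : FP flip :=
  FP.cases FP.id (FP.const [true]) (FP.const [true]) (FP.const [false])

open Classical in
theorem flip_decide (p : Prop) : flip [decide p] = [decide ¬ p] := by
  by_cases h : p <;> simp [h, flip]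

theorem S1_le_D2 {B : Set Str → Set Str} (h : Cl (.S 1) B) : Cl (.D 2) B := by
  classical
  exact ⟨B, h, _, FPZ.oracle, fun Z x => by simp⟩

theorem P1_le_D2 {B : Set Str → Set Str} (h : Cl (.P 1) B) : Cl (.D 2) B := by
  classical
  refine ⟨fun Z => (B Z)ᶜ, h, _, (FPZ.base FP_flip).comp FPZ.oracle, fun Z x => ?_⟩
  rw [flip_decide]
  simp

/-! ### the events -/

/-- the strings of length at most `n` -/
noncomputable def short (n : ℕ) : Finset Str := (short_finite n).toFinset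

theorem mem_short {n : ℕ} {y : Str} : y ∈ short n ↔ y.length ≤ n := by
  simp [short]

theorem le_card_short (n : ℕ) : 2 ^ n ≤ (short n).card := by
  classical
  have h1 : (Finset.univ.image fun v : Fin n → Bool => List.ofFn v) ⊆ short n := by
    intro y hy
    obtain ⟨v, _, rfl⟩ := Finset.mem_image.1 hy
    rw [mem_short, List.length_ofFn]
  have h2 := Finset.card_le_card h1
  rw [Finset.card_image_of_injective _ List.ofFn_injective, Finset.card_univ] at h2
  simpa using h2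

/-- the language `{x | some string of length at most |x| is in Z}` -/
def BE (Z : Set Str) : Set Str := {x | ∃ y : Str, y.length ≤ x.length ∧ y ∈ Z}

theorem BE_on (x : Str) : On (short x.length) fun Z => x ∈ BE Z := by
  intro Z Z' h
  refine exists_congr fun y => and_congr_right fun hy => ?_
  exact h y (mem_short.2 hy)

theorem Sig_BE : Sig 1 BE := by
  classical
  refine ⟨fun Z => Z, Sig.id, _, FPZ.oracle.comp (FPZ.base FP.p2), Polynomial.X, fun Z x => ?_⟩
  simp [BE]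

theorem mu_not_BE (x : Str) : mu (fun Z => ¬ x ∈ BE Z) = (2⁻¹ : ℝ) ^ (short x.length).card := by
  rw [← mu_cyl (short x.length) ∅]
  refine mu_congr fun Z => ?_
  constructor
  · intro h s hs
    simp only [Set.mem_empty_iff_false, iff_false]
    intro hsZ
    exact h ⟨s, mem_short.1 hs, hsZ⟩
  · rintro h ⟨y, hy, hyZ⟩
    exact (h y (mem_short.2 hy)).1 hyZ

theorem mu_BE (x : Str) : mu (fun Z => x ∈ BE Z) = 1 - (2⁻¹ : ℝ) ^ (short x.length).card := by
  have h := mu_compl (BE_on x)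
  rw [mu_not_BE] at h
  linarith

/-! ### the probabilities of the lower levels -/

theorem Sig.grain {B : Set Str → Set Str} (h : Sig 0 B) :
    ∃ k, ∀ x, ∃ a : ℕ, mu (fun Z => x ∈ B Z) * 2 ^ (x.length + 2) ^ k = a := by
  obtain ⟨f, hf, hB⟩ := h
  obtain ⟨k, hk⟩ := hf.qc
  refine ⟨k, fun x => ?_⟩
  have h1 := ((hk x).map fun w => w = [true]).congr (G := fun Z => x ∈ B Z) fun Z => by
    rw [hB]
  exact h1.grain

theorem Sig.grain_not {B : Set Str → Set Str} (h : Sig 0 fun Z => (B Z)ᶜ) :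
    ∃ k, ∀ x, ∃ a : ℕ, mu (fun Z => x ∈ B Z) * 2 ^ (x.length + 2) ^ k = a := by
  obtain ⟨f, hf, hB⟩ := h
  obtain ⟨k, hk⟩ := hf.qc
  refine ⟨k, fun x => ?_⟩
  have h1 := ((hk x).map fun w => ¬ w = [true]).congr (G := fun Z => x ∈ B Z) fun Z => by
    have := hB Z x
    rw [Set.mem_compl_iff] at this
    rw [← this, not_not]
  exact h1.grain

/-- an event in `NP^Z` is impossible or not too improbable -/
theorem Sig.lower {B : Set Str → Set Str} (h : Sig 1 B) :
    ∃ k, ∀ x, mu (fun Z => x ∈ B Z) = 0 ∨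
      (2⁻¹ : ℝ) ^ (x.length + 2) ^ k ≤ mu fun Z => x ∈ B Z := by
  obtain ⟨A, hA, f, hf, p, hB⟩ := h
  have hg : FPZ (fun Z x => f (A Z) x) := hf.subst hA
  obtain ⟨k, hk⟩ := hg.qc
  obtain ⟨l, hl⟩ := exists_pow_bound p
  -- the length of `pr x y` plus two is at most `(|x| + 2) ^ (l + 3)`
  refine ⟨(l + 3) * k, fun x => ?_⟩
  by_cases hE : ∃ Z, x ∈ B Z
  · right
    obtain ⟨Z₀, hZ₀⟩ := hE
    obtain ⟨y, hy, hfy⟩ := (hB Z₀ x).1 hZ₀
    obtain ⟨S, hS, hc⟩ := (hk (pr x y)).cert Z₀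
    have h1 : (2⁻¹ : ℝ) ^ S.card ≤ mu fun Z => x ∈ B Z := by
      refine le_mu (Z₀ := Z₀) fun Z hZ => (hB Z x).2 ⟨y, hy, ?_⟩
      have := hc Z hZ
      rw [this]
      exact hfy
    refine le_trans (pow_le_pow_of_le_one (by norm_num) (by norm_num) ?_) h1
    refine hS.trans ?_
    rw [pow_mul]
    refine Nat.pow_le_pow_left ?_ _
    rw [length_pr]
    have h2 := hl x.length
    have h3 : 1 ≤ (x.length + 2) ^ l := Nat.one_le_pow _ _ (by omega)
    have h4 : (x.length + 2) ^ (l + 3) =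
        (x.length + 2) ^ l * ((x.length + 2) * ((x.length + 2) * (x.length + 2))) := by ring
    rw [h4]
    have h5 : 2 * (x.length + 2) + 3 ≤ (x.length + 2) * ((x.length + 2) * (x.length + 2)) := by
      nlinarith [sq_nonneg (x.length : ℤ)]
    have h6 : (x.length + 2) ^ l * (2 * (x.length + 2) + 3) ≤
        (x.length + 2) ^ l * ((x.length + 2) * ((x.length + 2) * (x.length + 2))) :=
      Nat.mul_le_mul_left _ h5
    nlinarith
  · left
    push Not at hE
    rw [← mu_false]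
    exact mu_congr fun Z => by simp [hE Z]

theorem exists_pow_lt (k : ℕ) : ∃ n : ℕ, (n + 2) ^ k < 2 ^ n := by
  have h := tendsto_pow_const_div_const_pow_of_one_lt k (r := (2 : ℝ)) (by norm_num)
  have h1 := h.eventually (gt_mem_nhds (show (0 : ℝ) < 1 / 4 by norm_num))
  obtain ⟨N, hN⟩ := Filter.eventually_atTop.1 h1
  refine ⟨N, ?_⟩
  have h2 := hN (N + 2) (by omega)
  rw [div_lt_iff₀ (by positivity)] at h2
  have h3 : (2 : ℝ) ^ (N + 2) = 2 ^ N * 4 := by ring
  rw [h3] at h2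
  have h4 : ((N + 2 : ℕ) : ℝ) ^ k < 2 ^ N := by linarith
  exact_mod_cast h4

theorem not_grain {t K a : ℕ} (h : t < K) (ha : (2⁻¹ : ℝ) ^ K * 2 ^ t = a) : False := by
  obtain ⟨d, rfl⟩ : ∃ d, K = t + (d + 1) := ⟨K - t - 1, by omega⟩
  have h1 : (2⁻¹ : ℝ) ^ (t + (d + 1)) * 2 ^ t = (2⁻¹ : ℝ) ^ (d + 1) := by
    rw [pow_add, mul_right_comm, ← mul_pow]
    norm_num
  rw [h1] at ha
  have h2 : (0 : ℝ) < (2⁻¹ : ℝ) ^ (d + 1) := by positivity
  have h3 : (2⁻¹ : ℝ) ^ (d + 1) < 1 := pow_lt_one₀ (by norm_num) (by norm_num) (by omega)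
  rw [ha] at h2 h3
  have h4 : 0 < a := by exact_mod_cast h2
  have h5 : a < 1 := by exact_mod_cast h3
  omega

/-! ### the separations -/

/-- strings with large `K` -/
theorem exists_long (k : ℕ) (b : Bool) :
    ∃ x : Str, x.head? = some b ∧ (x.length + 2) ^ k < (short x.length).card := by
  obtain ⟨n, hn⟩ := exists_pow_lt k
  refine ⟨List.replicate n b, ?_, ?_⟩
  · cases n with
    | zero =>
      have : 1 ≤ (0 + 2) ^ k := Nat.one_le_pow _ _ (by omega)
      simp only [pow_zero] at hn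
      omega
    | succ n => rfl
  · rw [List.length_replicate]
    exact hn.trans_le (le_card_short n)

theorem Lm_BE_not_P : ∀ A, Sig 0 A → Lm A ≠ Lm BE := by
  intro A hA h
  obtain ⟨k, hk⟩ := hA.grain
  obtain ⟨x, -, hx⟩ := exists_long k true
  obtain ⟨a, ha⟩ := hk x
  rw [Lm_inj h x, mu_BE, sub_mul, one_mul] at ha
  have h1 : (2⁻¹ : ℝ) ^ (short x.length).card * 2 ^ (x.length + 2) ^ k =
      2 ^ (x.length + 2) ^ k - a := by linarith
  have hle : (a : ℝ) ≤ 2 ^ (x.length + 2) ^ k := by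
    have : (0 : ℝ) ≤ (2⁻¹ : ℝ) ^ (short x.length).card * 2 ^ (x.length + 2) ^ k := by positivity
    linarith
  have hle' : a ≤ 2 ^ (x.length + 2) ^ k := by exact_mod_cast hle
  refine not_grain (a := 2 ^ (x.length + 2) ^ k - a) hx ?_
  rw [h1]
  push_cast [hle']
  rfl

/-- the complement -/
def BC (Z : Set Str) : Set Str := (BE Z)ᶜ

theorem mu_BC (x : Str) : mu (fun Z => x ∈ BC Z) = (2⁻¹ : ℝ) ^ (short x.length).card :=
  mu_not_BE x

theorem P_BC : Cl (.P 1) BC := by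
  show Sig 1 fun Z => ((BE Z)ᶜ)ᶜ
  simp only [compl_compl]
  exact Sig_BE

theorem Lm_BC_not_P : ∀ A, Cl (.P 0) A → Lm A ≠ Lm BC := by
  intro A hA h
  obtain ⟨k, hk⟩ := Sig.grain_not hA
  obtain ⟨x, -, hx⟩ := exists_long k true
  obtain ⟨a, ha⟩ := hk x
  rw [Lm_inj h x, mu_BC] at ha
  exact not_grain hx ha

theorem small_lt {k : ℕ} {x : Str} (hx : (x.length + 2) ^ k < (short x.length).card) :
    (2⁻¹ : ℝ) ^ (short x.length).card < (2⁻¹ : ℝ) ^ (x.length + 2) ^ k :=
  pow_lt_pow_right_of_lt_one₀ (by norm_num) (by norm_num) hx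

/-- a probability as small as that of `BC` is not the probability of an event in `NP^Z` -/
theorem not_S1 {A : Set Str → Set Str} (hA : Cl (.S 1) A)
    (h : ∀ x : Str, x.head? = some false → mu (fun Z => x ∈ A Z) =
      (2⁻¹ : ℝ) ^ (short x.length).card) : False := by
  obtain ⟨k, hk⟩ := Sig.lower hA
  obtain ⟨x, hx0, hx⟩ := exists_long k false
  have h1 := small_lt hx
  rcases hk x with h2 | h2
  · rw [h x hx0] at h2
    have : (0 : ℝ) < (2⁻¹ : ℝ) ^ (short x.length).card := by positivity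
    linarith
  · rw [h x hx0] at h2
    linarith

theorem not_P1 {A : Set Str → Set Str} (hA : Cl (.P 1) A)
    (h : ∀ x : Str, x.head? = some true → mu (fun Z => x ∈ A Z) =
      1 - (2⁻¹ : ℝ) ^ (short x.length).card) : False := by
  have hA' : Sig 1 fun Z => (A Z)ᶜ := hA
  obtain ⟨k, hk⟩ := Sig.lower hA'
  obtain ⟨x, hx0, hx⟩ := exists_long k true
  have h1 := small_lt hx
  obtain ⟨S, hS⟩ := hA.on x
  have h3 : mu (fun Z => x ∈ (A Z)ᶜ) = (2⁻¹ : ℝ) ^ (short x.length).card := by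
    have := mu_compl hS
    rw [h x hx0, sub_sub_cancel] at this
    exact this
  rcases hk x with h2 | h2
  · rw [h3] at h2
    have : (0 : ℝ) < (2⁻¹ : ℝ) ^ (short x.length).card := by positivity
    linarith
  · rw [h3] at h2
    linarith

open Classical in
/-- a language in `Δ_2` which is neither in `LNP` nor in `LcoNP` -/
def BD (Z : Set Str) : Set Str := {x | if x.head? = some true then x ∈ BE Z else x ∉ BE Z}

theorem D_BD : Cl (.D 2) BD := by
  classical
  have hG : FP (fun w : Str => match p1 w with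
      | [] => flip (p2 w)
      | false :: _ => flip (p2 w)
      | true :: _ => p2 w) :=
    FP.cases FP.p1 (FP_flip.comp FP.p2) (FP_flip.comp FP.p2) FP.p2
  refine ⟨BE, Sig_BE, _, (FPZ.base hG).comp ((FPZ.base FP.id).pair FPZ.oracle), fun Z x => ?_⟩
  simp only [p1_pr, p2_pr, BD, Set.mem_ofPred_eq]
  rcases x with _ | ⟨b, x⟩
  · rw [flip_decide]
    simp
  · cases b
    · simp only [flip_decide]
      simp
    · simp

theorem mu_BD_true {x : Str} (hx : x.head? = some true) :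
    mu (fun Z => x ∈ BD Z) = 1 - (2⁻¹ : ℝ) ^ (short x.length).card := by
  rw [← mu_BE]
  exact mu_congr fun Z => by simp [BD, hx]

theorem mu_BD_false {x : Str} (hx : x.head? = some false) :
    mu (fun Z => x ∈ BD Z) = (2⁻¹ : ℝ) ^ (short x.length).card := by
  rw [← mu_not_BE]
  exact mu_congr fun Z => by simp [BD, hx]

theorem S0_ssubset_S1 : LCl (.S 0) ⊂ LCl (.S 1) := by
  refine ⟨?_, fun h => ?_⟩
  · rintro _ ⟨B, hB, rfl⟩
    exact ⟨B, Sig.succ hB, rfl⟩
  · obtain ⟨A, hA, hAB⟩ := h ⟨BE, Sig_BE, rfl⟩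
    exact Lm_BE_not_P A hA hAB.symm

theorem P0_ssubset_P1 : LCl (.P 0) ⊂ LCl (.P 1) := by
  refine ⟨?_, fun h => ?_⟩
  · rintro _ ⟨B, hB, rfl⟩
    exact ⟨B, Sig.succ hB, rfl⟩
  · obtain ⟨A, hA, hAB⟩ := h ⟨BC, P_BC, rfl⟩
    exact Lm_BC_not_P A hA hAB.symm

theorem not_S1_le_P1 : ¬ LCl (.S 1) ⊆ LCl (.P 1) := by
  intro h
  obtain ⟨A, hA, hAB⟩ := h ⟨BE, Sig_BE, rfl⟩
  exact not_P1 hA fun x _ => by rw [← Lm_inj hAB x, mu_BE]

theorem not_P1_le_S1 : ¬ LCl (.P 1) ⊆ LCl (.S 1) := by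
  intro h
  obtain ⟨A, hA, hAB⟩ := h ⟨BC, P_BC, rfl⟩
  exact not_S1 hA fun x _ => by rw [← Lm_inj hAB x, mu_BC]

theorem union_ssubset_D2 : LCl (.S 1) ∪ LCl (.P 1) ⊂ LCl (.D 2) := by
  refine ⟨?_, fun h => ?_⟩
  · rintro _ (⟨B, hB, rfl⟩ | ⟨B, hB, rfl⟩)
    · exact ⟨B, S1_le_D2 hB, rfl⟩
    · exact ⟨B, P1_le_D2 hB, rfl⟩
  · rcases h ⟨BD, D_BD, rfl⟩ with ⟨A, hA, hAB⟩ | ⟨A, hA, hAB⟩
    · exact not_S1 hA fun x hx => by rw [← Lm_inj hAB x, mu_BD_false hx]
    · exact not_P1 hA fun x hx => by rw [← Lm_inj hAB x, mu_BD_true hx]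

end Pool.Agent.LPH
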