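import Pool.Agent.LPH.Meas

/-!
# The LP-hierarchy: elementary facts on the classes (MP_6e1f77_lc)
-/

set_option autoImplicit false

namespace Pool.Agent.LPH

open Pool.Agent.PolyTime MeasureTheory

/-! ### the coding of the rational numbers -/

private theorem bits_eq_append (n : ℕ) : n ≠ 0 → ∃ l, n.bits = l ++ [true] := by
  induction n using Nat.strong_induction_on with
  | _ n ih =>
    intro hn
    obtain ⟨b, m, rfl⟩ : ∃ b m, n = Nat.bit b m := ⟨n.bodd, n.div2, (Nat.bit_bodd_div2 n).symm⟩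
    by_cases hm : m = 0
    · subst hm
      cases b with
      | false => exact absurd rfl hn
      | true => exact ⟨[], by simp⟩
    · have hlt : m < Nat.bit b m := by
        rw [Nat.bit_val]
        have : 0 < m := Nat.pos_of_ne_zero hm
        omega
      obtain ⟨l, hl⟩ := ih m hlt hm
      refine ⟨b :: l, ?_⟩
      rw [Nat.bits_append_bit m b (fun h => absurd h hm), hl]
      rfl

private theorem bits_inj {m n : ℕ} (h : m.bits = n.bits) : m = n := by
  have h1 : ∀ k : ℕ, Nat.ofDigits 2 ((k.bits).map fun b => if b then 1 else 0) = k := by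
    intro k
    induction k using Nat.strong_induction_on with
    | _ k ih =>
      by_cases hk : k = 0
      · subst hk
        simp
      · obtain ⟨b, m, rfl⟩ : ∃ b m, k = Nat.bit b m := ⟨k.bodd, k.div2, (Nat.bit_bodd_div2 k).symm⟩
        have hlt : m < Nat.bit b m := by
          rw [Nat.bit_val] at hk ⊢
          cases b <;> simp at hk ⊢ <;> omega
        have hb : m = 0 → b = true := by
          rintro rfl
          cases b
          · exact absurd rfl hk
          · rfl
        rw [Nat.bits_append_bit m b hb, List.map_cons, Nat.ofDigits_cons, ih m hlt, Nat.bit_val]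
        cases b
        · simp
        · simp
          ring
  rw [← h1 m, ← h1 n, h]

theorem z_inj {m n : ℕ} (h : z m = z n) : m = n := by
  unfold z at h
  obtain ⟨k, hk⟩ := bits_eq_append (m + 1) (by omega)
  obtain ⟨l, hl⟩ := bits_eq_append (n + 1) (by omega)
  rw [hk, hl, List.dropLast_concat, List.dropLast_concat, List.reverse_inj] at h
  have : (m + 1).bits = (n + 1).bits := by rw [hk, hl, h]
  have := bits_inj this
  omega

private theorem Lm_le {A B : Set Str → Set Str} (h : Lm A = Lm B) (x : Str) :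
    mu (fun Z => x ∈ B Z) ≤ mu (fun Z => x ∈ A Z) := by
  by_contra hlt
  push Not at hlt
  obtain ⟨q, hq1, hq2⟩ := exists_rat_btwn hlt
  have hq0 : (0 : ℝ) ≤ q := (mu_nonneg _).trans hq1.le
  have hq0' : 0 ≤ q := by exact_mod_cast hq0
  have hqe : ((q.num.toNat : ℕ) : ℝ) / q.den = q := by
    have h1 : (q.num.toNat : ℤ) = q.num := Int.toNat_of_nonneg (Rat.num_nonneg.mpr hq0')
    have h2 : ((q.num.toNat : ℕ) : ℝ) = (q.num : ℝ) := by
      have : (((q.num.toNat : ℕ) : ℤ) : ℝ) = (q.num : ℝ) := by rw [h1]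
      exact_mod_cast this
    rw [h2]
    exact (Rat.cast_def q).symm
  have h1 : pr x (pr (z q.den) (z q.num.toNat)) ∈ Lm B := by
    refine ⟨x, q.den, q.num.toNat, rfl, q.den_pos, ?_⟩
    rw [hqe]
    exact hq2
  rw [← h] at h1
  obtain ⟨x', k, n, he, _, hlt'⟩ := h1
  rw [pr_inj, pr_inj] at he
  obtain ⟨rfl, h2, h3⟩ := he
  have h4 := z_inj h2
  have h5 := z_inj h3
  subst h4
  rw [← h5, hqe] at hlt'
  linarith

/-- `Lm B` determines the probabilities. -/
theorem Lm_inj {A B : Set Str → Set Str} (h : Lm A = Lm B) (x : Str) :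
    mu (fun Z => x ∈ A Z) = mu (fun Z => x ∈ B Z) :=
  le_antisymm (Lm_le h.symm x) (Lm_le h x)

theorem Lm_congr {A B : Set Str → Set Str}
    (h : ∀ x, mu (fun Z => x ∈ A Z) = mu (fun Z => x ∈ B Z)) : Lm A = Lm B := by
  unfold Lm
  simp only [h]

/-! ### dependence on finitely many strings -/

theorem short_finite (n : ℕ) : {y : Str | y.length ≤ n}.Finite := List.finite_length_le Bool n

private theorem on_subst {A : Set Str → Set Str} (hA : ∀ x, ∃ S, On S fun Z => x ∈ A Z)
    {f : Set Str → Str → Str} (hf : FPZ f) (w : Str) :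
    ∃ S : Finset Str, ∀ Z Z' : Set Str, (∀ s ∈ S, s ∈ Z ↔ s ∈ Z') → f (A Z) w = f (A Z') w := by
  classical
  obtain ⟨k, hk⟩ := hf.qc
  obtain ⟨T, hT⟩ := (hk w).finite
  choose S hS using hA
  refine ⟨T.biUnion S, fun Z Z' h => hT _ _ fun s hs => ?_⟩
  exact hS s Z Z' fun r hr => h r (Finset.mem_biUnion.mpr ⟨s, hs, hr⟩)

theorem Sig.on (k : ℕ) : ∀ {B : Set Str → Set Str}, Sig k B → ∀ x, ∃ S, On S fun Z => x ∈ B Z := by
  classical
  induction k with
  | zero =>
    rintro B ⟨f, hf, hB⟩ x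
    obtain ⟨k, hk⟩ := hf.qc
    obtain ⟨S, hS⟩ := (hk x).finite
    refine ⟨S, fun Z Z' h => ?_⟩
    simp only [hB, hS Z Z' h]
  | succ k ih =>
    rintro B ⟨A, hA, f, hf, p, hB⟩ x
    have h1 := fun w => on_subst (ih hA) hf w
    choose S hS using h1
    let Y : Finset Str := (short_finite (p.eval x.length)).toFinset
    refine ⟨Y.biUnion fun y => S (pr x y), fun Z Z' h => ?_⟩
    show x ∈ B Z ↔ x ∈ B Z'
    rw [hB, hB]
    refine exists_congr fun y => and_congr_right fun hy => ?_
    rw [hS (pr x y) Z Z' fun r hr => h r (Finset.mem_biUnion.mpr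
      ⟨y, (Set.Finite.mem_toFinset _).mpr hy, hr⟩)]

theorem On.not {S : Finset Str} {E : Set Str → Prop} (h : On S E) : On S fun Z => ¬ E Z :=
  fun Z Z' hZ => not_congr (h Z Z' hZ)

theorem Cl.on {a : Lev} {B : Set Str → Set Str} (hB : Cl a B) (x : Str) :
    ∃ S, On S fun Z => x ∈ B Z := by
  match a, hB with
  | .D 0, hB => exact Sig.on 0 hB x
  | .D (k + 1), ⟨A, hA, f, hf, hB⟩ =>
    obtain ⟨S, hS⟩ := on_subst (Sig.on k hA) hf x
    refine ⟨S, fun Z Z' h => ?_⟩
    simp only [hB, hS Z Z' h]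
  | .S k, hB => exact Sig.on k hB x
  | .P k, hB =>
    obtain ⟨S, hS⟩ := Sig.on k (show Sig k fun Z => (B Z)ᶜ from hB) x
    refine ⟨S, fun Z Z' h => ?_⟩
    have := (hS.not) Z Z' h
    simpa using this

/-! ### the empty oracle -/

theorem FPZ.fixed {f : Set Str → Str → Str} (hf : FPZ f) : FPZ (fun _ x => f ∅ x) := by
  induction hf with
  | base hf => exact FPZ.base hf
  | oracle =>
    refine (FPZ.base (FP.const [false])).congr fun Z x => ?_
    simp
  | comp _ _ ihg ihf => exact ihg.comp ihf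
  | pair _ _ ihf ihg => exact ihf.pair ihg
  | iter _ _ _ p hp ihf ihg ihh => exact ihf.iter ihg ihh p (fun Z x i hi => hp ∅ x i hi)

theorem Sig.fixed (k : ℕ) : ∀ {B : Set Str → Set Str}, Sig k B → Sig k (fun _ => B ∅) := by
  induction k with
  | zero =>
    rintro B ⟨f, hf, hB⟩
    exact ⟨_, hf.fixed, fun Z x => hB ∅ x⟩
  | succ k ih =>
    rintro B ⟨A, hA, f, hf, p, hB⟩
    exact ⟨_, ih hA, f, hf, p, fun Z x => hB ∅ x⟩

theorem Cl.fixed {a : Lev} {B : Set Str → Set Str} (hB : Cl a B) : Cl a (fun _ => B ∅) := by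
  match a, hB with
  | .D 0, hB => exact Sig.fixed 0 hB
  | .D (k + 1), ⟨A, hA, f, hf, hB⟩ => exact ⟨_, Sig.fixed k hA, f, hf, fun Z x => hB ∅ x⟩
  | .S k, hB => exact Sig.fixed k hB
  | .P k, hB => exact Sig.fixed k (B := fun Z => (B Z)ᶜ) hB

theorem mem_UCl {a : Lev} {L : Set Str} : L ∈ UCl a ↔ Cl a (fun _ => L) := by
  constructor
  · rintro ⟨B, hB, rfl⟩
    exact hB.fixed
  · intro h
    exact ⟨_, h, rfl⟩

/-- An inclusion of classes of the LP-hierarchy gives the inclusion of the corresponding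
unrelativized classes. -/
theorem UCl_mono {a b : Lev} (h : LCl a ⊆ LCl b) : UCl a ⊆ UCl b := by
  classical
  rintro L ⟨B, hB, rfl⟩
  obtain ⟨A, hA, hAB⟩ := h ⟨_, hB.fixed, rfl⟩
  refine ⟨A, hA, ?_⟩
  ext x
  have h1 := Lm_inj hAB x
  obtain ⟨S, hS⟩ := hA.on x
  by_cases hx : x ∈ B ∅
  · have h2 : mu (fun _ => x ∈ B ∅) = 1 := by
      rw [← mu_true]
      exact mu_congr fun _ => by simp [hx]
    have h3 : mu (fun Z => ¬ x ∈ A Z) = 0 := by
      rw [mu_compl hS, ← h1, h2, sub_self]
    have h4 := hS.not.eq_zero h3 ∅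
    simp only [not_not] at h4
    exact iff_of_true hx h4
  · have h2 : mu (fun _ => x ∈ B ∅) = 0 := by
      rw [← mu_false]
      exact mu_congr fun _ => by simp [hx]
    have h4 := hS.eq_zero (h1.symm.trans h2) ∅
    exact iff_of_false hx h4

end Pool.Agent.LPH
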