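import Pool.Agent.LPH.Query

/-!
# The LP-hierarchy: probabilities
-/

set_option autoImplicit false

namespace Pool.Agent.LPH

open Pool.Agent.PolyTime MeasureTheory

instance : IsProbabilityMeasure coins := by
  unfold coins
  infer_instance

/-- the oracles which agree with `Z₀` on `S` -/
def cyl (S : Finset Str) (Z₀ : Set Str) : Set (Str → Bool) :=
  {ω | ∀ s ∈ S, (ω s = true ↔ s ∈ Z₀)}

open Classical in
private theorem cyl_eq (S : Finset Str) (Z₀ : Set Str) :
    cyl S Z₀ = Set.pi (S : Set Str) (fun s => {decide (s ∈ Z₀)}) := by
  ext ω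
  simp only [cyl, Set.mem_ofPred_eq, Set.mem_pi, Finset.mem_coe, Set.mem_singleton_iff]
  refine forall₂_congr fun s _ => ?_
  by_cases h : s ∈ Z₀ <;> cases hω : ω s <;> simp [h]

theorem measurable_cyl (S : Finset Str) (Z₀ : Set Str) : MeasurableSet (cyl S Z₀) := by
  classical
  rw [cyl_eq]
  exact MeasurableSet.pi S.countable_toSet fun _ _ => MeasurableSet.singleton _

theorem coins_cyl (S : Finset Str) (Z₀ : Set Str) :
    coins (cyl S Z₀) = (2⁻¹ : ENNReal) ^ S.card := by
  classical
  rw [cyl_eq, coins, Measure.infinitePi_pi _ (fun s _ => MeasurableSet.singleton _)]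
  rw [← Finset.prod_const]
  refine Finset.prod_congr rfl fun s _ => ?_
  rw [PMF.toMeasure_apply_singleton _ _ (MeasurableSet.singleton _)]
  simp

theorem mu_nonneg (E : Set Str → Prop) : 0 ≤ mu E := ENNReal.toReal_nonneg

theorem mu_mono {E F : Set Str → Prop} (h : ∀ Z, E Z → F Z) : mu E ≤ mu F := by
  unfold mu
  refine ENNReal.toReal_mono (measure_ne_top _ _) (measure_mono ?_)
  intro ω hω
  exact h _ hω

theorem mu_congr {E F : Set Str → Prop} (h : ∀ Z, E Z ↔ F Z) : mu E = mu F :=
  le_antisymm (mu_mono fun Z => (h Z).1) (mu_mono fun Z => (h Z).2)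

theorem mu_cyl (S : Finset Str) (Z₀ : Set Str) :
    mu (fun Z => ∀ s ∈ S, s ∈ Z ↔ s ∈ Z₀) = (2⁻¹ : ℝ) ^ S.card := by
  have h1 : {ω : Str → Bool | ∀ s ∈ S, s ∈ {s | ω s = true} ↔ s ∈ Z₀} = cyl S Z₀ := rfl
  unfold mu
  rw [h1, coins_cyl]
  simp

theorem mu_false : mu (fun _ => False) = 0 := by
  simp [mu]

theorem mu_true : mu (fun _ => True) = 1 := by
  simp [mu]

/-- a nonempty event which depends on a few strings is not too small -/
theorem le_mu {E : Set Str → Prop} {S : Finset Str} {Z₀ : Set Str}
    (h : ∀ Z : Set Str, (∀ s ∈ S, s ∈ Z ↔ s ∈ Z₀) → E Z) : (2⁻¹ : ℝ) ^ S.card ≤ mu E := by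
  rw [← mu_cyl S Z₀]
  exact mu_mono h

/-- the event depends on the strings in `S` only -/
def On (S : Finset Str) (E : Set Str → Prop) : Prop :=
  ∀ Z Z' : Set Str, (∀ s ∈ S, s ∈ Z ↔ s ∈ Z') → (E Z ↔ E Z')

open Classical in
theorem mu_count {S : Finset Str} {E : Set Str → Prop} (h : On S E) :
    mu E = ((S.powerset.filter fun A : Finset Str => E (A : Set Str)).card : ℝ) / 2 ^ S.card := by
  have hE : {ω : Str → Bool | E {s | ω s = true}} =
      ⋃ A ∈ S.powerset.filter (fun A : Finset Str => E (A : Set Str)), cyl S (A : Set Str) := by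
    ext ω
    simp only [Set.mem_ofPred_eq, Set.mem_iUnion, exists_prop, Finset.mem_filter,
      Finset.mem_powerset]
    constructor
    · intro hω
      refine ⟨S.filter fun s => ω s = true, ⟨Finset.filter_subset _ _, ?_⟩, ?_⟩
      · refine (h _ _ fun s hs => ?_).1 hω
        simp [hs]
      · intro s hs
        simp [hs]
    · rintro ⟨A, ⟨_, hEA⟩, hω⟩
      refine (h _ _ fun s hs => ?_).1 hEA
      exact (hω s hs).symm
  have hdisj : (↑(S.powerset.filter fun A : Finset Str => E (A : Set Str)) :
      Set (Finset Str)).PairwiseDisjoint (fun A : Finset Str => cyl S (A : Set Str)) := by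
    intro A hA B hB hAB
    rw [Function.onFun, Set.disjoint_left]
    intro ω h1 h2
    apply hAB
    have hA' : A ⊆ S := Finset.mem_powerset.1 (Finset.mem_filter.1 hA).1
    have hB' : B ⊆ S := Finset.mem_powerset.1 (Finset.mem_filter.1 hB).1
    ext s
    constructor
    · intro hs
      have := (h2 s (hA' hs)).1 ((h1 s (hA' hs)).2 (by simpa using hs))
      simpa using this
    · intro hs
      have := (h1 s (hB' hs)).1 ((h2 s (hB' hs)).2 (by simpa using hs))
      simpa using this
  unfold mu
  rw [hE, measure_biUnion_finset hdisj (fun A _ => measurable_cyl _ _)]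
  simp_rw [coins_cyl]
  rw [Finset.sum_const, nsmul_eq_mul,
    ENNReal.toReal_mul, ENNReal.toReal_natCast, ENNReal.toReal_pow, ENNReal.toReal_inv]
  simp only [ENNReal.toReal_ofNat]
  rw [inv_pow, div_eq_mul_inv]

open Classical in
/-- counting over the assignments on `S`, with a fixed oracle `C` outside -/
private theorem count_grain {t : ℕ} {E : Set Str → Prop} (h : QC t E) (S : Finset Str)
    (C : Set Str) (hC : ∀ s ∈ S, s ∉ C) :
    ∃ a : ℕ, (S.powerset.filter fun A : Finset Str => E ((A : Set Str) ∪ C)).card * 2 ^ t =
      a * 2 ^ S.card := by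
  induction h generalizing S C with
  | const t p =>
    by_cases hp : p
    · refine ⟨2 ^ t, ?_⟩
      simp only [hp, Finset.filter_true, Finset.card_powerset]
      ring
    · exact ⟨0, by simp [hp]⟩
  | @query t s F G _ _ ihF ihG =>
    by_cases hs : s ∈ S
    · set T := S.erase s with hT
      have hsT : s ∉ T := Finset.notMem_erase s S
      have hST : S = insert s T := (Finset.insert_erase hs).symm
      have hcard : S.card = T.card + 1 := by rw [hST, Finset.card_insert_of_notMem hsT]
      obtain ⟨a, ha⟩ := ihF T (C ∪ {s}) (fun r hr => by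
        intro h1
        rcases h1 with h1 | h1
        · exact hC r (Finset.mem_of_mem_erase hr) h1
        · rw [Set.mem_singleton_iff] at h1
          exact hsT (h1 ▸ hr))
      obtain ⟨b, hb⟩ := ihG T C (fun r hr => hC r (Finset.mem_of_mem_erase hr))
      refine ⟨a + b, ?_⟩
      have hsC : s ∉ C := hC s hs
      have hsplit : (S.powerset.filter fun A : Finset Str =>
          (fun Z : Set Str => if s ∈ Z then F Z else G Z) ((A : Set Str) ∪ C)).card =
          (T.powerset.filter fun A : Finset Str => F ((A : Set Str) ∪ (C ∪ {s}))).card +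
          (T.powerset.filter fun A : Finset Str => G ((A : Set Str) ∪ C)).card := by
        rw [hST, Finset.powerset_insert, Finset.filter_union, Finset.card_union_of_disjoint, add_comm]
        · congr 1
          · rw [Finset.filter_image, Finset.card_image_of_injOn]
            · congr 1
              apply Finset.filter_congr
              intro A hA
              have e1 : ((insert s A : Finset Str) : Set Str) ∪ C = (A : Set Str) ∪ (C ∪ {s}) := by
                ext r
                simp only [Finset.coe_insert, Set.mem_union, Set.mem_insert_iff,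
                  Set.mem_singleton_iff]
                tauto
              have e2 : s ∈ (A : Set Str) ∪ (C ∪ {s}) := by simp
              simp only [e1, if_pos e2]
            · intro A hA B hB hAB
              have hA' : s ∉ A := fun h => hsT (Finset.mem_powerset.1
                (Finset.mem_filter.1 hA).1 h)
              have hB' : s ∉ B := fun h => hsT (Finset.mem_powerset.1
                (Finset.mem_filter.1 hB).1 h)
              have := congrArg (fun D => Finset.erase D s) hAB
              simpa [Finset.erase_insert hA', Finset.erase_insert hB'] using this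
          · congr 1
            apply Finset.filter_congr
            intro A hA
            have hA' : s ∉ (A : Set Str) ∪ C := by
              rintro (h | h)
              · exact hsT (Finset.mem_powerset.1 hA h)
              · exact hsC h
            simp only [if_neg hA']
        · rw [Finset.disjoint_left]
          intro A hA hA'
          have h1 : A ⊆ T := Finset.mem_powerset.1 (Finset.mem_filter.1 hA).1
          obtain ⟨B, _, rfl⟩ := Finset.mem_image.1 (Finset.mem_filter.1 hA').1
          exact hsT (h1 (Finset.mem_insert_self _ _))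
      rw [hsplit, hcard]
      calc _ = ((T.powerset.filter fun A : Finset Str => F ((A : Set Str) ∪ (C ∪ {s}))).card * 2 ^ t +
            (T.powerset.filter fun A : Finset Str => G ((A : Set Str) ∪ C)).card * 2 ^ t) * 2 := by
            ring
        _ = _ := by rw [ha, hb]; ring
    · by_cases hsC : s ∈ C
      · obtain ⟨a, ha⟩ := ihF S C hC
        refine ⟨2 * a, ?_⟩
        have : (S.powerset.filter fun A : Finset Str =>
            (fun Z : Set Str => if s ∈ Z then F Z else G Z) ((A : Set Str) ∪ C)) =
            (S.powerset.filter fun A : Finset Str => F ((A : Set Str) ∪ C)) := by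
          apply Finset.filter_congr
          intro A hA
          have : s ∈ (A : Set Str) ∪ C := Or.inr hsC
          simp only [if_pos this]
        rw [this, pow_succ, ← mul_assoc, ha]
        ring
      · obtain ⟨a, ha⟩ := ihG S C hC
        refine ⟨2 * a, ?_⟩
        have : (S.powerset.filter fun A : Finset Str =>
            (fun Z : Set Str => if s ∈ Z then F Z else G Z) ((A : Set Str) ∪ C)) =
            (S.powerset.filter fun A : Finset Str => G ((A : Set Str) ∪ C)) := by
          apply Finset.filter_congr
          intro A hA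
          have : s ∉ (A : Set Str) ∪ C := by
            rintro (h | h)
            · exact hs (Finset.mem_powerset.1 hA h)
            · exact hsC h
          simp only [if_neg this]
        rw [this, pow_succ, ← mul_assoc, ha]
        ring

/-- an event decided by `t` queries has a probability in `2^(-t) ℤ` -/
theorem QC.grain {t : ℕ} {E : Set Str → Prop} (h : QC t E) : ∃ a : ℕ, mu E * 2 ^ t = a := by
  classical
  obtain ⟨S, hS⟩ := h.finite
  have hOn : On S E := fun Z Z' hZ => by rw [hS Z Z' hZ]
  obtain ⟨a, ha⟩ := count_grain h S ∅ (fun _ _ h => h)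
  refine ⟨a, ?_⟩
  rw [mu_count hOn]
  simp only [Set.union_empty] at ha
  have ha' : ((S.powerset.filter fun A : Finset Str => E (A : Set Str)).card : ℝ) * 2 ^ t =
      a * 2 ^ S.card := by exact_mod_cast ha
  rw [div_mul_eq_mul_div, ha']
  field_simp

/-- an event which depends on finitely many strings and has probability `0` is impossible -/
theorem On.eq_zero {S : Finset Str} {E : Set Str → Prop} (h : On S E) (h0 : mu E = 0) (Z : Set Str) :
    ¬ E Z := by
  intro hZ
  have h1 : (2⁻¹ : ℝ) ^ S.card ≤ mu E := le_mu (Z₀ := Z) fun Z' hZ' => (h Z' Z hZ').2 hZ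
  rw [h0] at h1
  have h2 : (0 : ℝ) < (2⁻¹ : ℝ) ^ S.card := by positivity
  linarith

/-- an event which depends on finitely many strings is measurable -/
theorem On.measurable {S : Finset Str} {E : Set Str → Prop} (h : On S E) :
    MeasurableSet {ω : Str → Bool | E {s | ω s = true}} := by
  classical
  have hE : {ω : Str → Bool | E {s | ω s = true}} =
      ⋃ A ∈ {A ∈ (S.powerset : Set (Finset Str)) | E (A : Set Str)}, cyl S (A : Set Str) := by
    ext ω
    simp only [Set.mem_ofPred_eq, Set.mem_iUnion, exists_prop, Finset.mem_coe,
      Finset.mem_powerset]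
    constructor
    · intro hω
      refine ⟨S.filter fun s => ω s = true, ⟨Finset.filter_subset _ _, ?_⟩, ?_⟩
      · refine (h _ _ fun s hs => ?_).1 hω
        simp [hs]
      · intro s hs
        simp [hs]
    · rintro ⟨A, ⟨_, hEA⟩, hω⟩
      refine (h _ _ fun s hs => ?_).1 hEA
      exact (hω s hs).symm
  rw [hE]
  refine MeasurableSet.biUnion ?_ fun A _ => measurable_cyl _ _
  exact Set.Countable.mono (fun A hA => hA.1) (Finset.countable_toSet _)

theorem mu_compl {S : Finset Str} {E : Set Str → Prop} (h : On S E) :
    mu (fun Z => ¬ E Z) = 1 - mu E := by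
  unfold mu
  have h1 : {ω : Str → Bool | ¬ E {s | ω s = true}} = {ω : Str → Bool | E {s | ω s = true}}ᶜ := rfl
  rw [h1, prob_compl_eq_one_sub h.measurable, ENNReal.toReal_sub_of_le prob_le_one (by simp)]
  simp

end Pool.Agent.LPH
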