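import Pool.Agent.LPH.Defs

/-!
# The LP-hierarchy: few queries

`QC t F`: the value of `F` at an oracle is found by at most `t` adaptive queries.
-/

set_option autoImplicit false

namespace Pool.Agent.LPH

open Pool.Agent.PolyTime

open Classical in
/-- at most `t` adaptive queries -/
inductive QC {α : Type} : ℕ → (Set Str → α) → Prop
  | const (t : ℕ) (a : α) : QC t (fun _ => a)
  | query (t : ℕ) (s : Str) {F G : Set Str → α} (hF : QC t F) (hG : QC t G) :
      QC (t + 1) (fun Z => if s ∈ Z then F Z else G Z)

section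

variable {α β : Type}

theorem QC.congr {t : ℕ} {F G : Set Str → α} (h : QC t F) (h' : ∀ Z, F Z = G Z) : QC t G := by
  have : F = G := funext h'
  rwa [← this]

theorem QC.mono {t u : ℕ} {F : Set Str → α} (h : QC t F) (htu : t ≤ u) : QC u F := by
  induction h generalizing u with
  | const t a => exact QC.const u a
  | @query t s F G _ _ ihF ihG =>
    obtain ⟨v, rfl⟩ : ∃ v, u = v + 1 := ⟨u - 1, by omega⟩
    exact QC.query v s (ihF (by omega)) (ihG (by omega))

theorem QC.bind {t u : ℕ} {F : Set Str → α} {G : α → Set Str → β} (hF : QC t F)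
    (hG : ∀ a, QC u (G a)) : QC (t + u) (fun Z => G (F Z) Z) := by
  induction hF with
  | const t a => exact (hG a).mono (by omega)
  | @query t s F F' _ _ ihF ihF' =>
    have := QC.query (t + u) s ihF ihF'
    refine (this.mono (by omega)).congr fun Z => ?_
    by_cases hs : s ∈ Z <;> simp [hs]

theorem QC.map {t : ℕ} {F : Set Str → α} (hF : QC t F) (g : α → β) :
    QC t (fun Z => g (F Z)) := by
  have := hF.bind (u := 0) (G := fun a _ => g a) (fun a => QC.const 0 (g a))
  exact this

/-- iteration of a map which needs at most `u` queries -/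
theorem QC.iterate {u : ℕ} {f : Set Str → α → α} (hf : ∀ y, QC u (fun Z => f Z y)) (n : ℕ)
    (y : α) : QC (n * u) (fun Z => (f Z)^[n] y) := by
  induction n generalizing y with
  | zero => exact QC.const _ y
  | succ n ih =>
    have := (hf y).bind (u := n * u) (G := fun a Z => (f Z)^[n] a) (fun a => ih a)
    refine (this.mono (by rw [Nat.succ_mul]; omega)).congr fun Z => ?_
    rw [Function.iterate_succ_apply]

/-- the value depends on finitely many strings -/
theorem QC.finite {t : ℕ} {F : Set Str → α} (h : QC t F) :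
    ∃ S : Finset Str, ∀ Z Z' : Set Str, (∀ s ∈ S, s ∈ Z ↔ s ∈ Z') → F Z = F Z' := by
  classical
  induction h with
  | const t a => exact ⟨∅, fun _ _ _ => rfl⟩
  | @query t s F G _ _ ihF ihG =>
    obtain ⟨S, hS⟩ := ihF
    obtain ⟨T, hT⟩ := ihG
    refine ⟨insert s (S ∪ T), fun Z Z' h => ?_⟩
    have h1 : s ∈ Z ↔ s ∈ Z' := h s (Finset.mem_insert_self _ _)
    have h2 : F Z = F Z' := hS Z Z' fun r hr =>
      h r (Finset.mem_insert_of_mem (Finset.mem_union_left _ hr))
    have h3 : G Z = G Z' := hT Z Z' fun r hr =>
      h r (Finset.mem_insert_of_mem (Finset.mem_union_right _ hr))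
    by_cases hs : s ∈ Z
    · have hs' := h1.1 hs
      simp [hs, hs', h2]
    · have hs' : s ∉ Z' := fun h4 => hs (h1.2 h4)
      simp [hs, hs', h3]

/-- a certificate of at most `t` strings for the value at an oracle -/
theorem QC.cert {t : ℕ} {F : Set Str → α} (h : QC t F) (Z₀ : Set Str) :
    ∃ S : Finset Str, S.card ≤ t ∧ ∀ Z : Set Str, (∀ s ∈ S, s ∈ Z ↔ s ∈ Z₀) → F Z = F Z₀ := by
  classical
  induction h with
  | const t a => exact ⟨∅, by simp, fun _ _ => rfl⟩
  | @query t s F G _ _ ihF ihG =>
    by_cases hs : s ∈ Z₀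
    · obtain ⟨S, hc, hS⟩ := ihF
      refine ⟨insert s S, (Finset.card_insert_le _ _).trans (by omega), fun Z h => ?_⟩
      have hs' := (h s (Finset.mem_insert_self _ _)).2 hs
      simp only [hs, hs', if_true]
      exact hS Z fun r hr => h r (Finset.mem_insert_of_mem hr)
    · obtain ⟨S, hc, hS⟩ := ihG
      refine ⟨insert s S, (Finset.card_insert_le _ _).trans (by omega), fun Z h => ?_⟩
      have hs' : s ∉ Z := fun h4 => hs ((h s (Finset.mem_insert_self _ _)).1 h4)
      simp only [hs, hs', if_false]
      exact hS Z fun r hr => h r (Finset.mem_insert_of_mem hr)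

end

/-! ### oracle programs -/

theorem FPZ.congr {f g : Set Str → Str → Str} (hf : FPZ f) (h : ∀ Z x, f Z x = g Z x) : FPZ g := by
  have : f = g := funext fun Z => funext (h Z)
  rwa [← this]

/-- a polynomial bound for the length, uniform in the oracle -/
theorem FPZ.length {f : Set Str → Str → Str} (hf : FPZ f) :
    ∃ k, ∀ Z x, (f Z x).length ≤ (x.length + 2) ^ k := by
  induction hf with
  | @base f hf =>
    obtain ⟨k, hk⟩ := hf.length_pow
    exact ⟨k, fun _ x => hk x⟩
  | oracle => exact ⟨0, fun _ x => by simp⟩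
  | @comp g f _ _ ihg ihf =>
    obtain ⟨k, hk⟩ := ihg
    obtain ⟨l, hl⟩ := ihf
    refine ⟨(l + 2) * k, fun Z x => (hk Z _).trans ?_⟩
    rw [pow_mul]
    refine Nat.pow_le_pow_left ?_ _
    have h1 := hl Z x
    have h2 : (x.length + 2) ^ (l + 2) = (x.length + 2) ^ l * ((x.length + 2) * (x.length + 2)) := by
      ring
    have h3 : 1 ≤ (x.length + 2) ^ l := Nat.one_le_pow _ _ (by omega)
    have h4 : (x.length + 2) ^ l * 4 ≤ (x.length + 2) ^ l * ((x.length + 2) * (x.length + 2)) :=
      Nat.mul_le_mul_left _ (by nlinarith)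
    omega
  | @pair f g _ _ ihf ihg =>
    obtain ⟨k, hk⟩ := ihf
    obtain ⟨l, hl⟩ := ihg
    refine ⟨max k l + 2, fun Z x => ?_⟩
    rw [length_pr]
    have h1 := hk Z x
    have h2 := hl Z x
    have h3 : (x.length + 2) ^ k ≤ (x.length + 2) ^ max k l := pow_mono_exp (le_max_left _ _)
    have h4 : (x.length + 2) ^ l ≤ (x.length + 2) ^ max k l := pow_mono_exp (le_max_right _ _)
    have h5 : (x.length + 2) ^ (max k l + 2) =
        (x.length + 2) ^ max k l * ((x.length + 2) * (x.length + 2)) := by ring
    have h6 : (x.length + 2) ^ max k l * 4 ≤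
        (x.length + 2) ^ max k l * ((x.length + 2) * (x.length + 2)) :=
      Nat.mul_le_mul_left _ (by nlinarith)
    have h7 : 1 ≤ (x.length + 2) ^ max k l := Nat.one_le_pow _ _ (by omega)
    omega
  | @iter f g h _ _ _ p hp _ _ _ =>
    obtain ⟨k, hk⟩ := exists_pow_bound p
    exact ⟨k, fun Z x => (hp Z x _ le_rfl).trans (hk _)⟩

/-- the truncated step -/
private theorem iterate_trunc {f : Str → Str} {P : ℕ} {n : ℕ} {y : Str}
    (h : ∀ i ≤ n, (f^[i] y).length ≤ P) :
    ∀ i ≤ n, (fun w => if w.length ≤ P then f w else [])^[i] y = f^[i] y := by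
  intro i
  induction i with
  | zero => intro _; rfl
  | succ i ih =>
    intro hi
    rw [Function.iterate_succ_apply', Function.iterate_succ_apply', ih (by omega),
      if_pos (h i (by omega))]

/-- polynomially many queries -/
theorem FPZ.qc {f : Set Str → Str → Str} (hf : FPZ f) :
    ∃ k, ∀ x, QC ((x.length + 2) ^ k) (fun Z => f Z x) := by
  classical
  induction hf with
  | @base f hf => exact ⟨0, fun x => QC.const _ _⟩
  | oracle =>
    refine ⟨0, fun x => ?_⟩
    have := QC.query 0 x (QC.const 0 [true]) (QC.const 0 [false])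
    refine (this.mono (by simp)).congr fun Z => ?_
    by_cases hx : x ∈ Z <;> simp [hx]
  | @comp g f _ hf ihg ihf =>
    obtain ⟨k, hk⟩ := ihg
    obtain ⟨l, hl⟩ := ihf
    obtain ⟨m, hm⟩ := hf.length
    -- total: (n+2)^l + ((n+2)^m + 2)^k
    refine ⟨max l ((m + 2) * k) + 1, fun x => ?_⟩
    have h1 := (hl x).bind (u := ((x.length + 2) ^ m + 2) ^ k)
      (G := fun a Z => if a.length ≤ (x.length + 2) ^ m then g Z a else []) (fun a => by
        by_cases ha : a.length ≤ (x.length + 2) ^ m
        · simp only [if_pos ha]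
          exact (hk a).mono (Nat.pow_le_pow_left (by omega) _)
        · simp only [if_neg ha]
          exact QC.const _ _)
    refine (h1.mono ?_).congr fun Z => ?_
    · refine le_trans (Nat.add_le_add_left ?_ _) (pow_add_le x.length l ((m + 2) * k))
      rw [pow_mul]
      refine Nat.pow_le_pow_left ?_ _
      have h2 : (x.length + 2) ^ (m + 2) =
          (x.length + 2) ^ m * ((x.length + 2) * (x.length + 2)) := by ring
      have h3 : 1 ≤ (x.length + 2) ^ m := Nat.one_le_pow _ _ (by omega)
      have h4 : (x.length + 2) ^ m * 4 ≤ (x.length + 2) ^ m * ((x.length + 2) * (x.length + 2)) :=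
        Nat.mul_le_mul_left _ (by nlinarith)
      omega
    · simp only [if_pos (hm Z x)]
  | @pair f g _ _ ihf ihg =>
    obtain ⟨k, hk⟩ := ihf
    obtain ⟨l, hl⟩ := ihg
    refine ⟨max k l + 1, fun x => ?_⟩
    have h1 := (hk x).bind (u := (x.length + 2) ^ l) (G := fun a Z => pr a (g Z x))
      (fun a => (hl x).map (fun b => pr a b))
    exact h1.mono (pow_add_le _ _ _)
  | @iter f g h _ hg _ p hp ihf ihg ihh =>
    obtain ⟨a, ha⟩ := ihf
    obtain ⟨b, hb⟩ := ihg
    obtain ⟨c, hc⟩ := ihh
    obtain ⟨m, hm⟩ := hg.length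
    obtain ⟨l, hl⟩ := exists_pow_bound p
    -- the number of queries of `g`, of `h`, of all the steps
    refine ⟨max b (max c (m + (l + 2) * a) + 1) + 1, fun x => ?_⟩
    set N := x.length + 2 with hN
    have hstep : ∀ y, QC ((N ^ l + 2) ^ a) (fun Z => if y.length ≤ N ^ l then f Z y else []) := by
      intro y
      by_cases hy : y.length ≤ N ^ l
      · simp only [if_pos hy]
        exact (ha y).mono (Nat.pow_le_pow_left (by omega) _)
      · simp only [if_neg hy]
        exact QC.const _ _
    have hit : ∀ n y, QC (n * (N ^ l + 2) ^ a)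
        (fun Z => (fun w => if w.length ≤ N ^ l then f Z w else [])^[n] y) :=
      fun n y => QC.iterate (f := fun Z w => if w.length ≤ N ^ l then f Z w else []) hstep n y
    have h1 : ∀ w : Str, QC (N ^ c + N ^ m * (N ^ l + 2) ^ a) (fun Z =>
        if w.length ≤ N ^ m then
          (fun w => if w.length ≤ N ^ l then f Z w else [])^[w.length] (h Z x) else []) := by
      intro w
      by_cases hw : w.length ≤ N ^ m
      · simp only [if_pos hw]
        have h2 := (hc x).bind (u := N ^ m * (N ^ l + 2) ^ a)
          (G := fun y Z => (fun w => if w.length ≤ N ^ l then f Z w else [])^[w.length] y)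
          (fun y => (hit w.length y).mono (Nat.mul_le_mul_right _ hw))
        exact h2
      · simp only [if_neg hw]
        exact QC.const _ _
    have h2 := (hb x).bind (G := fun (w : Str) Z => if w.length ≤ N ^ m then
          (fun w => if w.length ≤ N ^ l then f Z w else [])^[w.length] (h Z x) else []) h1
    refine (h2.mono ?_).congr fun Z => ?_
    · have h3 : N ^ m * (N ^ l + 2) ^ a ≤ N ^ (m + (l + 2) * a) := by
        rw [pow_add, pow_mul]
        refine Nat.mul_le_mul_left _ (Nat.pow_le_pow_left ?_ _)
        have h4 : N ^ (l + 2) = N ^ l * (N * N) := by ring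
        have h5 : 1 ≤ N ^ l := Nat.one_le_pow _ _ (by omega)
        have h6 : N ^ l * 4 ≤ N ^ l * (N * N) := Nat.mul_le_mul_left _ (by nlinarith)
        omega
      have h7 : N ^ c + N ^ (m + (l + 2) * a) ≤ N ^ (max c (m + (l + 2) * a) + 1) :=
        pow_add_le _ _ _
      have h8 : N ^ b + N ^ (max c (m + (l + 2) * a) + 1) ≤
          N ^ (max b (max c (m + (l + 2) * a) + 1) + 1) := pow_add_le _ _ _
      have h9 : (x.length + 2) ^ b = N ^ b := rfl
      omega
    · simp only
      rw [if_pos (hm Z x)]
      refine iterate_trunc (fun i hi => ?_) _ le_rfl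
      exact (hp Z x i hi).trans (hl _)

/-- the oracle is replaced by a language in `P^Z` -/
theorem FPZ.subst {g : Set Str → Str → Str} (hg : FPZ g) {A : Set Str → Set Str} (hA : Sig 0 A) :
    FPZ (fun Z x => g (A Z) x) := by
  classical
  obtain ⟨a, ha, hA'⟩ := hA
  induction hg with
  | base hf => exact FPZ.base hf
  | oracle =>
    have htest : FP (fun u : Str => [decide (u = [true])]) := by
      have h1 : FP (fun u : Str => match u with
          | [] => [false]
          | false :: _ => [false]
          | true :: w => match w with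
            | [] => [true]
            | false :: _ => [false]
            | true :: _ => [false]) :=
        FP.cases FP.id (FP.const [false]) (FP.const [false])
          ((FP.cases FP.tail (FP.const [true]) (FP.const [false]) (FP.const [false])))
          |>.congr (fun u => by
            rcases u with _ | ⟨b, w⟩
            · rfl
            · cases b
              · rfl
              · rfl)
      refine h1.congr fun u => ?_
      rcases u with _ | ⟨b, w⟩
      · simp
      · cases b
        · simp
        · rcases w with _ | ⟨c, w⟩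
          · simp
          · cases c <;> simp
    refine (FPZ.comp (FPZ.base htest) ha).congr fun Z x => ?_
    by_cases h : a Z x = [true]
    · simp [h, (hA' Z x).2 h]
    · have h' : x ∉ A Z := fun h1 => h ((hA' Z x).1 h1)
      simp [h, h']
  | comp _ _ ihg ihf => exact ihg.comp ihf
  | pair _ _ ihf ihg => exact ihf.pair ihg
  | iter _ _ _ p hp ihf ihg ihh => exact ihf.iter ihg ihh p (fun Z x i hi => hp (A Z) x i hi)

end Pool.Agent.LPH
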